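import Pool.Agent.HoroSix.EvenMain
import Pool.Agent.HoroB.Fin

/-!
# Horocycles with an even number of points

Every finite set `P` of at least two points of the hyperbolic plane determines a horocycle
containing an even number of points of `P`. More precisely, let `u` be the number of points of
`P` which lie on a determined horocycle with an even number of points of `P`. Then `h P` is at
most `n (3 u + 1)`, so `u` is at least `(n - 40) / 120`, and if every horocycle contains at most
`M` points of `P`, then `n` is at most `(2 M - 1) u + M + 1`. If no horocycle contains four points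
of `P`, then at least `(n - 4) / 5` horocycles contain exactly two of them, and `h P` is larger
than `n (n - 1) / 3` by at least `2 (n - 4) / 15`.
-/

set_option autoImplicit false

namespace Pool.Agent.Results.MP_d7f0d3_co.EvenHorocycle

open Finset UpperHalfPlane Pool.Agent.Hhelper97.Horo Pool.Agent.HoroSix

/-- Horocycles with an even number of points of a finite set. -/
theorem result (P : Finset ℍ) :
    (2 ≤ #P → ∃ H ∈ determined P, Even ((P : Set ℍ) ∩ H).ncard) ∧
    (h P ≤ #P * (3 * #(evenPts P) + 1) ∧ #P ≤ 120 * #(evenPts P) + 40) ∧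
    (∀ M : ℕ, 2 ≤ M → (∀ H, IsHorocycle H → ((P : Set ℍ) ∩ H).ncard ≤ M) →
      #P ≤ (2 * M - 1) * #(evenPts P) + M + 1) ∧
    ((∀ H, IsHorocycle H → ((P : Set ℍ) ∩ H).ncard ≤ 3) →
      #P ≤ 5 * {H ∈ determined P | ((P : Set ℍ) ∩ H).ncard = 2}.ncard + 4 ∧
      5 * #P ^ 2 ≤ 15 * h P + 3 * #P + 8) := by
  refine ⟨exists_even, ⟨h_le_evenPts P, ?_⟩, fun _ hM h => le_evenPts hM h, three_on⟩
  by_cases h2 : 2 ≤ #P
  · have h3 := Pool.Agent.HoroB.Fin.card_sq_le P h2
    have h4 := h_le_evenPts P
    have h5 : #P * #P ≤ #P * (120 * #(evenPts P) + 40) := by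
      calc #P * #P = #P ^ 2 := (sq _).symm
        _ ≤ 40 * h P := h3
        _ ≤ 40 * (#P * (3 * #(evenPts P) + 1)) := Nat.mul_le_mul_left _ h4
        _ = #P * (120 * #(evenPts P) + 40) := by ring
    exact Nat.le_of_mul_le_mul_left h5 (by omega)
  · omega

end Pool.Agent.Results.MP_d7f0d3_co.EvenHorocycle
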