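import Pool.Agent.Hhelper97.Horo.Unique

/-!
# The minimum number of horocycles for sets with at most two points off a horocycle
-/

set_option autoImplicit false

namespace Pool.Agent.Results.MP_d7f0d3_co.NearHorocyclic

open Finset UpperHalfPlane Pool.Agent.Hhelper97.Horo

/-- For `n ≥ 263`, the least number of horocycles determined by a set of `n` points of the
hyperbolic plane, at least `n - 2` of which lie on one horocycle, is `C(n - 2, 2) + 6`, and every
such set which attains it is the image of the golden chain under an isometry. -/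
theorem result : ∀ n : ℕ, 263 ≤ n →
    IsLeast {k : ℕ | ∃ P : Finset ℍ, #P = n ∧
      (∃ H : Set ℍ, IsHorocycle H ∧ n ≤ ((P : Set ℍ) ∩ H).ncard + 2) ∧ h P = k}
      ((n - 2).choose 2 + 6) ∧
    ∀ P : Finset ℍ, #P = n →
      (∃ H : Set ℍ, IsHorocycle H ∧ n ≤ ((P : Set ℍ) ∩ H).ncard + 2) →
      h P = (n - 2).choose 2 + 6 →
      ∃ φ : ℍ ≃ᵢ ℍ, (P : Set ℍ) = φ '' (golden (n - 2) : Set ℍ) :=
  fun _ hn => ⟨near_horocyclic hn, fun _ hP ⟨_, hH, hc⟩ hh => unique hn hP hH hc hh.le⟩

end Pool.Agent.Results.MP_d7f0d3_co.NearHorocyclic
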