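import Pool.Agent.HoroSmall.Six
import Pool.Agent.HoroSix.Main

/-!
# The minimum number of horocycles determined by three, four, five and six points

`m 3 = 4`, `m 4 = 6`, `m 5 = 8`, `m 6 = 11`, that is `m n = ⌊n ^ 2 / 4⌋ + 2` for `3 ≤ n ≤ 6`. For
`n = 4, 5, 6` these values are smaller than the number `C(n - 2, 2) + 6` of horocycles of the chains
of `TwoSided`.
-/

set_option autoImplicit false

namespace Pool.Agent.Results.MP_d7f0d3_co.SmallValues

open Finset UpperHalfPlane Pool.Agent.Hhelper97.Horo Pool.Agent.HoroSmall Pool.Agent.HoroSix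

/-- The exact values of `m n` for `n = 3, 4, 5, 6` (the division is that of natural numbers). -/
theorem result : ∀ n : ℕ, 3 ≤ n → n ≤ 6 → m n = n ^ 2 / 4 + 2 := by
  intro n h3 h6
  have h : n = 3 ∨ n = 4 ∨ n = 5 ∨ n = 6 := by omega
  rcases h with rfl | rfl | rfl | rfl
  · exact m_three
  · exact m_four
  · exact m_five
  · exact m_eq exists_six fun _ hP => low6 hP

end Pool.Agent.Results.MP_d7f0d3_co.SmallValues
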