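import Pool.Agent.HoroO.Low

/-!
# The order of magnitude of the minimum number of horocycles determined by `n` points

The definitions of `MP_d7f0d3_co.GoldenChain` (by helper19); they are in
`Pool.Agent.Hhelper97.Horo.Defs`.
-/

set_option autoImplicit false

namespace Pool.Agent.Results.MP_d7f0d3_co.TwoSided

open Finset UpperHalfPlane Pool.Agent.Hhelper97.Horo

/-- The minimum of `h P` over the sets `P` of `n` points. -/
noncomputable def m (n : ℕ) : ℕ := sInf {k | ∃ P : Finset ℍ, #P = n ∧ h P = k}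

theorem exists_card (n : ℕ) : ∃ P : Finset ℍ, #P = n := by
  classical
  refine ⟨(Finset.range n).image fun i : ℕ => (⟨⟨(i : ℝ), 1⟩, one_pos⟩ : ℍ), ?_⟩
  rw [Finset.card_image_of_injective, Finset.card_range]
  intro i j hij
  have h1 : (i : ℝ) = (j : ℝ) := congrArg UpperHalfPlane.re hij
  exact_mod_cast h1

theorem exists_min (n : ℕ) : ∃ P : Finset ℍ, #P = n ∧ m n = h P := by
  have hne : {k | ∃ P : Finset ℍ, #P = n ∧ h P = k}.Nonempty := by
    obtain ⟨P, hP⟩ := exists_card n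
    exact ⟨h P, P, hP, rfl⟩
  obtain ⟨P, hP, hk⟩ := Nat.sInf_mem hne
  exact ⟨P, hP, hk.symm⟩

/-- The order of magnitude of `m n`. -/
theorem result :
    (∀ P : Finset ℍ, (determined P).Finite) ∧
    (∀ n : ℕ, 2 ≤ n → n ^ 2 ≤ 35 * m n) ∧
    (∀ n : ℕ, 100000000 ≤ n → 2 * n ^ 2 ≤ 25 * m n) ∧
    (∀ n : ℕ, 4 ≤ n → m n ≤ (n - 2).choose 2 + 6) := by
  refine ⟨Pool.Agent.HoroB.Fin.finite_det, ?_, ?_, ?_⟩
  · intro n hn
    obtain ⟨P, hP, hm⟩ := exists_min n
    have h1 := Pool.Agent.HoroO.uniform35 P (by rw [hP]; exact hn)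
    rw [hP] at h1
    rw [hm]
    exact h1
  · intro n hn
    obtain ⟨P, hP, hm⟩ := exists_min n
    have h1 := Pool.Agent.HoroB.Fin.card_sq_le' P (by rw [hP]; exact hn)
    rw [hP] at h1
    rw [hm]
    exact h1
  · intro n hn
    have h1 : m n ≤ h (golden (n - 2)) :=
      Nat.sInf_le ⟨golden (n - 2), by rw [card_golden]; omega, rfl⟩
    exact h1.trans (h_golden_le (by omega))

end Pool.Agent.Results.MP_d7f0d3_co.TwoSided
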